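import Mathlib
import Pool.Agent.H19.TChar

set_option autoImplicit false

namespace Pool.Agent.Results.MP_24a371_gt.Counter
open Filter Topology

/-- `s_v(Y)`: the points on which the characters `v n` tend to `0` -/
def sv {Y : Type} [AddCommGroup Y] [TopologicalSpace Y] (v : ℕ → Y →ₜ+ UnitAddCircle) : Set Y :=
  {y | Tendsto (fun n => v n y) atTop (𝓝 0)}

/-- a T-sequence: it tends to `0` in some Hausdorff group topology -/
def IsTSeq {G : Type} [AddCommGroup G] (v : ℕ → G) : Prop :=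
  ∃ τ : TopologicalSpace G, @IsTopologicalAddGroup G τ _ ∧ @T2Space G τ ∧
    Tendsto v atTop (@nhds G τ 0)

/-- T-characterized subgroups -/
def ChT {Y : Type} [AddCommGroup Y] [TopologicalSpace Y] (H : AddSubgroup Y) : Prop :=
  ∃ v : ℕ → Y →ₜ+ UnitAddCircle, IsTSeq v ∧ (H : Set Y) = sv v

/-- dually embedded subgroups -/
def DualEmb {Y : Type} [AddCommGroup Y] [TopologicalSpace Y] (H : AddSubgroup Y) : Prop :=
  ∀ χ : H →ₜ+ UnitAddCircle, ∃ ψ : Y →ₜ+ UnitAddCircle, ∀ h : H, ψ h = χ h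

open Pool.Agent.H19.TChar

lemma pos (S : AddSubgroup X) (k m : ℕ) (hkm : k * m = 2) (ha : m • a ∈ S) (he : ∀ i, e i ∈ S)
    (hS : ∀ y ∈ S, ∃ j : ℕ, p1 y = j * m) (H : AddSubgroup X) (hH : ∀ y, y ∈ H ↔ k • p1 y = 0) :
    ChT (H.addSubgroupOf S) := by
  refine ⟨fun n => res S (c k n), tseq {y : S | p1 y = 0} ⟨_, ha⟩ (fun i => ⟨_, he i⟩)
    (fun _ => rfl) (fun y => ?_) _ (fun x hx => (c_tend k x).2 ?_) fun n => ?_, ?_⟩
  · obtain ⟨j, hj⟩ := hS y y.2
    refine ⟨j, ?_⟩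
    change p1 ((y : X) - j • m • a) = 0
    rw [map_sub, map_nsmul, p1_a, hj, nsmul_eq_mul, sub_self]
  · rw [show p1 x = 0 from hx, smul_zero]
  · filter_upwards [c_e k n] with i hi
    change c k n (e i) = c k n (m • a)
    rw [hi, c_a, hkm]; rfl
  · ext y
    exact (hH y).trans (c_tend k y).symm

theorem result : ∃ (Y : Type) (_ : AddCommGroup Y) (_ : TopologicalSpace Y)
    (_ : IsTopologicalAddGroup Y) (X0 X1 X2 : AddSubgroup Y), T2Space Y ∧ X0 ≤ X1 ∧ X1 ≤ X2 ∧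
      DualEmb (X1.addSubgroupOf X2) ∧ ChT (X0.addSubgroupOf X1) ∧ ChT (X1.addSubgroupOf X2) ∧
      ¬ ChT (X0.addSubgroupOf X2) := by
  have hm : ∀ y, y ∈ (2 • p1).ker ↔ 2 • p1 y = 0 := fun y => Iff.rfl
  refine ⟨X, inferInstance, inferInstance, inferInstance, p1.ker, (2 • p1).ker, ⊤, inferInstance,
    fun y hy => ?_, le_top, fun χ => ?_, pos _ 1 2 rfl ?_ (fun i => ?_) (fun y hy => ?_) _ ?_,
    pos ⊤ 2 1 rfl trivial (fun _ => trivial) (fun y _ => ⟨(p1 y).val, by simp⟩) _ hm, ?_⟩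
  · rw [hm, show p1 y = 0 from hy, smul_zero]
  · obtain ⟨ψ, hψ⟩ := (Module.Baer.of_divisible UnitAddCircle).extension_property_addMonoidHom
      (AddSubgroup.subtype _) Subtype.val_injective χ.toAddMonoidHom
    exact ⟨⟨ψ, continuous_of_discreteTopology⟩, fun h => DFunLike.congr_fun hψ h⟩
  · rw [hm, p1_a]; decide
  · rw [hm, show p1 (e i) = 0 from rfl, smul_zero]
  · rw [hm] at hy
    have : ∀ s : ZMod 4, 2 • s = 0 → s = (0 : ℕ) * (2 : ℕ) ∨ s = (1 : ℕ) * (2 : ℕ) := by decide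
    exact (this _ hy).elim (fun h => ⟨0, h⟩) fun h => ⟨1, h⟩
  · intro y; rw [one_smul]; rfl
  · rintro ⟨w, ⟨τ, h1, h2, h3⟩, h⟩
    have : (2 • (⟨a, trivial⟩ : (⊤ : AddSubgroup X))) ∈ sv w :=
      neg _ (Subtype.ext four_a) (fun y => (two_smul_X y).imp Subtype.ext Subtype.ext) w τ h1 h2 h3
    rw [← h] at this
    exact absurd ((p1_a 2).symm.trans this) (by decide)

end Pool.Agent.Results.MP_24a371_gt.Counter
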